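import Pool.Agent.H586.GLU.Stm

set_option autoImplicit false
set_option linter.unusedSectionVars false
set_option linter.unusedVariables false

open MeasureTheory Matrix Finset Filter Topology
open scoped Matrix.Norms.Frobenius

namespace Pool.Agent.H97.GLU

open Pool.Agent.N990 hiding CB CB_nonneg dd_le
open Pool.Agent.N109.Slab
open Pool.Agent.H586.GLU

noncomputable section

variable {N D L : ℕ}

lemma dvs (f : SF D L) (M : Mt N) (x : Site D) (a : Lab D L) :
    dv (fun y b => f y b • M) x a = dv f x a • M := by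
  unfold dv low
  split_ifs
  · rw [sub_smul, zero_smul]
  · rw [sub_smul]

lemma dvr (f : SF D L) (r : ℝ) (x : Site D) (a : Lab D L) :
    dv (fun y b => f y b * r) x a = dv f x a * r := by
  unfold dv low
  split_ifs
  · rw [sub_mul, zero_mul]
  · rw [sub_mul]

lemma dps (f : SF D L) (M : Mt N) (x : Site D) (p : (Fin D × Fin D) × Fin L) :
    dp (fun y b => f y b • M) x p = dp f x p • M := by
  unfold dp
  rw [sub_smul, sub_smul, add_smul]

lemma fn_eq (w v : SF D L) (X Q : Mt N) :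
    (fun (y : Site D) (b : Lab D L) => w y b • (X * (v y b • Q))) =
      fun y b => (w y b * v y b) • (X * Q) := by
  funext y b
  rw [Matrix.mul_smul, smul_smul]

lemma BL_cf (V : Finset (Site D)) (u w v : SF D L) (P X Q : Mt N) :
    BL V u P (Tm w X (cf v Q)) = ∑ x ∈ Ns V,
      (∑ a, dv u x a * dv (fun y b => w y b * v y b) x a * ip P (X * Q) +
        ∑ p ∈ plabs D L, dp u x p * (w x (p.1.1, p.2) * v x (p.1.1, p.2) +
          w (x + ev p.1.1) (p.1.2, p.2) * v (x + ev p.1.1) (p.1.2, p.2) -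
          w x (p.1.2, p.2) * v x (p.1.2, p.2) -
          w (x + ev p.1.2) (p.1.1, p.2) * v (x + ev p.1.2) (p.1.1, p.2)) * ip P (X * Q)) := by
  change ∑ x ∈ Ns V, bx u (fun y b => ip P (w y b • (X * (v y b • Q)))) x = _
  refine Finset.sum_congr rfl fun x _ => ?_
  have h : (fun (y : Site D) (b : Lab D L) => ip P (w y b • (X * (v y b • Q)))) =
      fun y b => (w y b * v y b) * ip P (X * Q) := by
    funext y b
    rw [Matrix.mul_smul, smul_smul, ip_smul_right]
  rw [h]
  unfold bx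
  congr 1
  · refine Finset.sum_congr rfl fun a _ => ?_
    rw [dvr (fun y b => w y b * v y b), smul_eq_mul, mul_assoc]
  · refine Finset.sum_congr rfl fun p _ => ?_
    unfold dp
    rw [smul_eq_mul]
    ring

lemma qx_cf (w u v : SF D L) (X P Q : Mt N) (x : Site D) :
    qx w X (cf u P) (cf v Q) x =
      ∑ a, dv u x a * dv (fun y b => w y b * v y b) x a * ip P (X * Q) +
        ∑ p ∈ plabs D L,
        (dp w x p * ((u x (p.1.1, p.2) * v (x + ev p.1.1) (p.1.2, p.2) -
          u x (p.1.2, p.2) * v (x + ev p.1.2) (p.1.1, p.2)) * ip (P * Q) X) +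
        dp u x p * (
          w x (p.1.1, p.2) * ((v x (p.1.1, p.2) + v (x + ev p.1.1) (p.1.2, p.2)) * ip P (X * Q)) +
          w (x + ev p.1.1) (p.1.2, p.2) *
            (v x (p.1.1, p.2) * ip P (Q * X) + v (x + ev p.1.1) (p.1.2, p.2) * ip P (X * Q)) -
          w x (p.1.2, p.2) * ((v x (p.1.2, p.2) + v (x + ev p.1.2) (p.1.1, p.2)) * ip P (X * Q)) -
          w (x + ev p.1.2) (p.1.1, p.2) *
            (v x (p.1.2, p.2) * ip P (Q * X) + v (x + ev p.1.2) (p.1.1, p.2) * ip P (X * Q)))) := by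
  unfold qx
  congr 1
  · refine Finset.sum_congr rfl fun a _ => ?_
    have h1 : dv (cf u P) x a = dv u x a • P := dvs u P x a
    have h2 : (fun (y : Site D) (b : Lab D L) => w y b • (X * cf v Q y b)) =
      fun y b => (w y b * v y b) • (X * Q) := fn_eq w v X Q
    rw [h1, h2, dvs (fun y b => w y b * v y b), ip_smul_left, ip_smul_right, mul_assoc]
  · refine Finset.sum_congr rfl fun p _ => ?_
    have h1 : dp (cf u P) x p = dp u x p • P := dps u P x p
    rw [h1]
    simp only [Pool.Agent.H586.GLU.cf, ip_smul_left, ip_smul_right, ip_add_right, ip_sub_right, ip_sub_left,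
      Matrix.mul_smul, Matrix.smul_mul, mul_add, smul_add, smul_smul]
    ring

section tr
variable {X1 X2 X3 : Mt N}

lemma t321 (h1 : X1ᴴ = -X1) (h2 : X2ᴴ = -X2) (h3 : X3ᴴ = -X3) :
    (trace (X3 * X2 * X1)).re = -(trace (X1 * X2 * X3)).re := by
  have h : trace (X3 * X2 * X1) = -star (trace (X1 * X2 * X3)) := by
    rw [← trace_conjTranspose, conjTranspose_mul, conjTranspose_mul, h1, h2, h3]
    rw [← trace_neg]
    congr 1
    noncomm_ring
  rw [h, Complex.neg_re]
  rfl

lemma t231 : (trace (X2 * X3 * X1)).re = (trace (X1 * X2 * X3)).re := by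
  rw [trace_mul_cycle]

lemma t312 : (trace (X3 * X1 * X2)).re = (trace (X1 * X2 * X3)).re := by
  rw [← trace_mul_cycle]

lemma ipm {A B : Mt N} (h : Aᴴ = -A) : ip A B = -(trace (A * B)).re := by
  unfold ip
  rw [h, neg_mul, trace_neg, Complex.neg_re]

end tr

theorem alg : S_ALG := by
  intro N D L V w a b X1 X2 X3 h1 h2 h3
  obtain ⟨c0, hc0⟩ : ∃ c0, c0 = (trace (X1 * X2 * X3)).re := ⟨_, rfl⟩
  have e321 : (trace (X3 * X2 * X1)).re = -c0 := by rw [t321 h1 h2 h3, hc0]
  have e231 : (trace (X2 * X3 * X1)).re = c0 := by rw [t231, hc0]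
  have e312 : (trace (X3 * X1 * X2)).re = c0 := by rw [t312, hc0]
  have e213 : (trace (X2 * X1 * X3)).re = -c0 := by rw [t231 (X1 := X3) (X2 := X2) (X3 := X1), e321]
  have i1 : ip X2 (X1 * X3) = c0 := by
    rw [ipm h2, ← mul_assoc, e213, neg_neg]
  have i2 : ip X3 (X1 * X2) = -c0 := by
    rw [ipm h3, ← mul_assoc, e312]
  have i3 : ip (X2 * X3) X1 = -c0 := by
    rw [ip_comm, ipm h1, ← mul_assoc, hc0]
  have i4 : ip (X3 * X2) X1 = c0 := by
    rw [ip_comm, ipm h1, ← mul_assoc]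
    rw [t231 (X1 := X2) (X2 := X1) (X3 := X3), e213, neg_neg]
  have i5 : ip X2 (X3 * X1) = -c0 := by
    rw [ipm h2, ← mul_assoc, e231]
  have i6 : ip X3 (X2 * X1) = c0 := by
    rw [ipm h3, ← mul_assoc, e321, neg_neg]
  rw [← hc0, BL_cf, BL_cf, QL_apply, QL_apply, Finset.mul_sum, ← Finset.sum_add_distrib,
    ← Finset.sum_sub_distrib, ← Finset.sum_sub_distrib]
  refine Finset.sum_congr rfl fun x _ => ?_
  rw [qx_cf, qx_cf, i1, i2, i3, i4, i5, i6]
  rw [Finset.mul_sum]
  have hs : ∀ (s1 s2 s3 s4 u1 u2 u3 u4 r : ℝ), s1 = s3 → s2 = s4 →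
      u1 + u2 - u3 - u4 = r → (s1 + u1) + (s2 + u2) - (s3 + u3) - (s4 + u4) = r := by
    intro s1 s2 s3 s4 u1 u2 u3 u4 r q1 q2 q3
    rw [q1, q2, ← q3]
    ring
  refine hs _ _ _ _ _ _ _ _ _ rfl rfl ?_
  rw [← Finset.sum_add_distrib, ← Finset.sum_sub_distrib, ← Finset.sum_sub_distrib]
  refine Finset.sum_congr rfl fun p _ => ?_
  unfold dp wd
  ring

end

end Pool.Agent.H97.GLU
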